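import Pool.Agent.J4H34.DN.Stm

/-! Project DN, piece D: all roots are reflected, one after the other. -/

set_option autoImplicit false

namespace Pool.Agent.J4H79.DN

open Polynomial Complex
open Pool.Agent.J4H34.DN

/-- the polynomial with leading coefficient `a` and roots `m` -/
noncomputable def q (a : ℂ) (m : Multiset ℂ) : ℂ[X] := C a * (m.map (fun w => X - C w)).prod

theorem q_ne {a : ℂ} (ha : a ≠ 0) (m : Multiset ℂ) : q a m ≠ 0 := by
  unfold q
  exact mul_ne_zero (C_ne_zero.mpr ha) (monic_multiset_prod_of_monic _ _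
    (fun w _ => monic_X_sub_C w)).ne_zero

theorem q_roots {a : ℂ} (ha : a ≠ 0) (m : Multiset ℂ) : (q a m).roots = m := by
  unfold q
  rw [roots_C_mul _ ha, roots_multiset_prod_X_sub_C]

theorem q_cons (a w : ℂ) (m : Multiset ℂ) : q a (w ::ₘ m) = (X - C w) * q a m := by
  unfold q
  rw [Multiset.map_cons, Multiset.prod_cons]
  ring

theorem q_self {p : ℂ[X]} : q p.leadingCoeff p.roots = p := by
  unfold q
  exact ((IsAlgClosed.splits p).eq_prod_roots).symm

theorem star_eq (y : ℝ) (p : ℂ[X]) :
    Pool.Agent.J4H34.DN.star y p = q p.leadingCoeff (p.roots.map (fold y)) := by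
  unfold Pool.Agent.J4H34.DN.star q
  rw [Multiset.map_map]
  rfl

theorem fold_re (y : ℝ) (w : ℂ) : (fold y w).re = w.re := by
  unfold fold Pool.Agent.J4H34.DN.refl
  split_ifs <;> rfl

theorem fold_im {y : ℝ} {w : ℂ} (hy : -1 ≤ y) (hy1 : y ≤ 1) (hw : |w.im| ≤ 1) :
    -3 ≤ (fold y w).im ∧ (fold y w).im ≤ 1 := by
  have h := abs_le.mp hw
  unfold fold Pool.Agent.J4H34.DN.refl
  split_ifs with hc
  · simp only
    constructor <;> linarith
  · constructor <;> linarith

theorem dist_sq (x₀ R : ℝ) (w : ℂ) :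
    ‖(⟨x₀, R + 1⟩ : ℂ) - w‖ ^ 2 = (x₀ - w.re) ^ 2 + (R + 1 - w.im) ^ 2 := by
  rw [← Complex.normSq_eq_norm_sq, Complex.normSq_apply]
  simp only [Complex.sub_re, Complex.sub_im]
  ring

/-- the hypothesis of C for the other roots -/
theorem sum_others {m : Multiset ℂ} {R x₀ Λ v : ℝ} (hR : 1 ≤ R)
    (hm : ∀ w ∈ m, -3 ≤ w.im ∧ w.im ≤ 1)
    (hs : Λ + 1 / R ≤ R / ((R + 4) ^ 2 + (x₀ - v) ^ 2) +
      (m.map (fun w => R / ((R + 4) ^ 2 + (x₀ - w.re) ^ 2))).sum) :
    Λ ≤ (m.map (fun w => ((⟨x₀, R + 1⟩ : ℂ).im - w.im) / ‖(⟨x₀, R + 1⟩ : ℂ) - w‖ ^ 2)).sum := by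
  have hR0 : 0 < R := by linarith
  have h1 : R / ((R + 4) ^ 2 + (x₀ - v) ^ 2) ≤ 1 / R := by
    rw [div_le_div_iff₀ (by positivity) hR0]
    nlinarith [sq_nonneg (x₀ - v)]
  have h2 : (m.map (fun w => R / ((R + 4) ^ 2 + (x₀ - w.re) ^ 2))).sum ≤
      (m.map (fun w => ((⟨x₀, R + 1⟩ : ℂ).im - w.im) / ‖(⟨x₀, R + 1⟩ : ℂ) - w‖ ^ 2)).sum := by
    refine Multiset.sum_map_le_sum_map _ _ fun w hw => ?_
    obtain ⟨ha, hb⟩ := hm w hw
    rw [dist_sq]
    simp only
    have hpos : 0 < (x₀ - w.re) ^ 2 + (R + 1 - w.im) ^ 2 := by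
      have : 0 < R + 1 - w.im := by linarith
      positivity
    refine div_le_div₀ (by linarith) (by linarith) hpos ?_
    have : (R + 1 - w.im) ^ 2 ≤ (R + 4) ^ 2 := pow_le_pow_left₀ (by linarith) (by linarith) 2
    linarith
  linarith

/-- D. -/
theorem t_D : S_C → S_D := by
  intro hC p y R Λ x₀ n hp hroots hy hy1 hR hΛ hsum hn
  have hR0 : 0 < R := by linarith
  set a := p.leadingCoeff with ha
  have ha0 : a ≠ 0 := leadingCoeff_ne_zero.mpr hp
  set z₀ : ℂ := ⟨x₀, R + 1⟩ with hz₀
  set s := p.roots with hs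
  have hps : q a s = p := q_self
  have hz : z₀.im = R + 1 := rfl
  -- the application of C
  have app : ∀ (m : Multiset ℂ) (w : ℂ) (y' : ℝ), (∀ w ∈ m, -3 ≤ w.im ∧ w.im ≤ 1) → w.im ≤ 1 →
      y' < w.im → Λ + 1 / R ≤ R / ((R + 4) ^ 2 + (x₀ - w.re) ^ 2) +
        (m.map (fun w => R / ((R + 4) ^ 2 + (x₀ - w.re) ^ 2))).sum →
      (derivative^[n] (q a (w ::ₘ m))).eval z₀ ≠ 0 ∧
      ‖(derivative^[n] (q a (Pool.Agent.J4H34.DN.refl y' w ::ₘ m))).eval z₀‖ ≤
        Real.exp (5 * ((w.im - y') * (z₀.im - y') / ‖z₀ - w‖ ^ 2)) *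
          ‖(derivative^[n] (q a (w ::ₘ m))).eval z₀‖ := by
    intro m w y' hm hw hyw hsm
    have h := hC (q a m) z₀ w y' R Λ n (q_ne ha0 m) hR0 hΛ
      (by
        intro v hv
        rw [q_roots ha0] at hv
        have := (hm v hv).2
        rw [hz]; linarith)
      (by
        rw [q_roots ha0]
        exact sum_others hR hm hsm)
      hn hyw (by rw [hz]; linarith)
    rw [← q_cons, ← q_cons] at h
    exact h
  have hmem : ∀ w ∈ s, -3 ≤ w.im ∧ w.im ≤ 1 := fun w hw => by
    have := abs_le.mp (hroots w hw)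
    constructor <;> linarith
  constructor
  · -- nonvanishing
    have hne : s ≠ 0 := by
      rintro h0
      rw [h0, Multiset.map_zero, Multiset.sum_zero] at hsum
      have : 0 < 1 / R := by positivity
      linarith
    obtain ⟨w, hw⟩ := Multiset.exists_mem_of_ne_zero hne
    obtain ⟨m, hm⟩ := Multiset.exists_cons_of_mem hw
    have h := app m w (w.im - 1) (fun v hv => hmem v (by rw [hm]; exact Multiset.mem_cons_of_mem hv))
      (hmem w hw).2 (by linarith) (by
        rw [hm, Multiset.map_cons, Multiset.sum_cons] at hsum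
        exact hsum)
    rw [← hm, hps] at h
    exact h.1
  · -- induction
    set F : ℂ → ℝ := fun w => max (w.im - y) 0 * (R + 1 - y) / ‖z₀ - w‖ ^ 2 with hF
    have key : ∀ t u : Multiset ℂ, t + u = s →
        ‖(derivative^[n] (q a (t.map (fold y) + u))).eval z₀‖ ≤
          Real.exp (5 * (t.map F).sum) * ‖(derivative^[n] p).eval z₀‖ := by
      intro t
      induction t using Multiset.induction_on with
      | empty =>
        intro u hu
        rw [zero_add] at hu
        rw [Multiset.map_zero, zero_add, hu, hps, Multiset.map_zero, Multiset.sum_zero, mul_zero,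
          Real.exp_zero, one_mul]
      | cons w t ih =>
        intro u hu
        have hu' : t + (w ::ₘ u) = s := by
          rw [← hu, Multiset.cons_add, Multiset.add_cons]
        have h1 := ih (w ::ₘ u) hu'
        rw [Multiset.add_cons] at h1
        rw [Multiset.map_cons, Multiset.cons_add, Multiset.map_cons, Multiset.sum_cons]
        set m := t.map (fold y) + u with hm
        have hws : w ∈ s := by rw [← hu']; simp
        have hsub : ∀ v ∈ m, -3 ≤ v.im ∧ v.im ≤ 1 := by
          intro v hv
          rw [hm, Multiset.mem_add] at hv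
          rcases hv with hv | hv
          · obtain ⟨v', hv', rfl⟩ := Multiset.mem_map.mp hv
            exact fold_im hy hy1 (hroots v' (by
              rw [← hu', Multiset.mem_add]; exact Or.inl hv'))
          · exact hmem v (by
              rw [← hu', Multiset.mem_add]; exact Or.inr (Multiset.mem_cons_of_mem hv))
        by_cases hw : y < w.im
        · have hfold : fold y w = Pool.Agent.J4H34.DN.refl y w := by unfold fold; rw [if_pos hw]
          rw [hfold]
          have hsm : Λ + 1 / R ≤ R / ((R + 4) ^ 2 + (x₀ - w.re) ^ 2) +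
              (m.map (fun w => R / ((R + 4) ^ 2 + (x₀ - w.re) ^ 2))).sum := by
            refine hsum.trans (le_of_eq ?_)
            rw [← hu', hm, Multiset.map_add, Multiset.map_add, Multiset.map_cons, Multiset.sum_add,
              Multiset.sum_add, Multiset.sum_cons, Multiset.map_map]
            have e : t.map ((fun w : ℂ => R / ((R + 4) ^ 2 + (x₀ - w.re) ^ 2)) ∘ fold y) =
                t.map (fun w => R / ((R + 4) ^ 2 + (x₀ - w.re) ^ 2)) := by
              refine Multiset.map_congr rfl fun v _ => ?_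
              simp only [Function.comp, fold_re]
            rw [e]
            ring
          have h2 := (app m w y hsub (hmem w hws).2 hw hsm).2
          refine h2.trans ?_
          have h3 := mul_le_mul_of_nonneg_left h1
            (Real.exp_pos (5 * ((w.im - y) * (z₀.im - y) / ‖z₀ - w‖ ^ 2))).le
          refine h3.trans (le_of_eq ?_)
          rw [← mul_assoc, ← Real.exp_add, ← mul_add]
          congr 4
          rw [hF]
          simp only
          rw [max_eq_left (by linarith), hz]
        · have hfold : fold y w = w := by unfold fold; rw [if_neg hw]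
          rw [hfold]
          refine h1.trans (le_of_eq ?_)
          have hFw : F w = 0 := by
            rw [hF]
            simp only
            rw [max_eq_right (by linarith), zero_mul, zero_div]
          rw [hFw, zero_add]
    have h := key s 0 (add_zero s)
    rw [add_zero] at h
    rw [star_eq]
    exact h

end Pool.Agent.J4H79.DN
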