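import Pool.Agent.J4H34.DN.Stm

/-! Project DN, piece F: the inequality for polynomials. -/

set_option autoImplicit false

namespace Pool.Agent.J4H79.DN

open Polynomial Complex
open Pool.Agent.J4H34.DN

theorem strip_deriv {p : ℂ[X]} (h : ∀ w ∈ p.roots, |w.im| ≤ 1) :
    ∀ w ∈ (derivative p).roots, |w.im| ≤ 1 := by
  intro w hw
  have hd : derivative p ≠ 0 := by
    rintro h0
    rw [h0, roots_zero] at hw
    exact Multiset.notMem_zero w hw
  have hp : 0 < p.degree := by
    by_contra hc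
    rw [not_lt] at hc
    apply hd
    rw [eq_C_of_degree_le_zero hc, derivative_C]
  have h1 := rootSet_derivative_subset_convexHull_rootSet hp
  have hw' : w ∈ (derivative p).rootSet ℂ := by
    rw [mem_rootSet]
    refine ⟨hd, ?_⟩
    have := (mem_roots hd).1 hw
    simpa [IsRoot.def, aeval_def, eval₂_eq_eval_map] using this
  have h2 := h1 hw'
  have hconv : Convex ℝ {z : ℂ | |z.im| ≤ 1} := by
    have e : {z : ℂ | |z.im| ≤ 1} = {z : ℂ | (-1 : ℝ) ≤ z.im} ∩ {z : ℂ | z.im ≤ 1} := by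
      ext z
      change |z.im| ≤ 1 ↔ (-1 : ℝ) ≤ z.im ∧ z.im ≤ 1
      exact abs_le
    rw [e]
    exact (convex_halfSpace_im_ge (-1)).inter (convex_halfSpace_im_le 1)
  have hp0 : p ≠ 0 := by
    rintro rfl
    simp at hp
  have hsub : p.rootSet ℂ ⊆ {z : ℂ | |z.im| ≤ 1} := by
    intro z hz
    rw [mem_rootSet] at hz
    apply h z
    rw [mem_roots hp0]
    have := hz.2
    simpa [IsRoot.def, aeval_def, eval₂_eq_eval_map] using this
  exact convexHull_min hsub hconv h2

theorem strip_iter {p : ℂ[X]} (h : ∀ w ∈ p.roots, |w.im| ≤ 1) (n : ℕ) :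
    ∀ w ∈ (derivative^[n] p).roots, |w.im| ≤ 1 := by
  induction n with
  | zero => simpa using h
  | succ n ih =>
    rw [Function.iterate_succ_apply']
    exact strip_deriv ih

/-- F. -/
theorem t_F : S_A → S_D → S_E → S_F := by
  intro hA hD hE p y η R Λ x₀ n hp hroots hy hη hyη hR hΛ hsum hn
  have hR0 : 0 < R := by linarith
  obtain ⟨hne, hle⟩ := hD p y R Λ x₀ n hp hroots hy (by linarith) hR hΛ hsum hn
  set P := derivative^[n] p with hP
  set z₀ : ℂ := ⟨x₀, R + 1⟩ with hz₀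
  have hP0 : P ≠ 0 := by
    intro h0
    rw [h0, eval_zero] at hne
    exact hne rfl
  have h1 := hE P y η R x₀ hP0 (strip_iter hroots n) hy hη hyη hR
  have h2 := hA p y n z₀ (by rw [hz₀]; simp only; linarith)
  rw [← hP] at h2
  have hpos : 0 < ‖P.eval z₀‖ := norm_pos_iff.mpr hne
  have h3 := (h1.trans h2).trans hle
  have h4 := le_of_mul_le_mul_right h3 hpos
  have h5 := Real.exp_le_exp.mp h4
  set cnt : ℝ := ((P.roots.filter (fun w => |w.re - x₀| ≤ R ∧ y + η ≤ w.im)).card : ℝ) with hcnt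
  have h6 : (p.roots.map (fun w => max (w.im - y) 0 * (R + 1 - y) / ‖z₀ - w‖ ^ 2)).sum ≤
      (p.roots.map (fun w => 3 * (max (w.im - y) 0 * R / (R ^ 2 + (x₀ - w.re) ^ 2)))).sum := by
    refine Multiset.sum_map_le_sum_map _ _ fun w hw => ?_
    have hw1 := (abs_le.mp (hroots w hw)).2
    have hm : 0 ≤ max (w.im - y) 0 := le_max_right _ _
    have hnorm : ‖z₀ - w‖ ^ 2 = (x₀ - w.re) ^ 2 + (R + 1 - w.im) ^ 2 := by
      rw [← Complex.normSq_eq_norm_sq, Complex.normSq_apply, hz₀]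
      simp only [Complex.sub_re, Complex.sub_im]
      ring
    rw [hnorm]
    have hden : R ^ 2 + (x₀ - w.re) ^ 2 ≤ (x₀ - w.re) ^ 2 + (R + 1 - w.im) ^ 2 := by
      have : R ^ 2 ≤ (R + 1 - w.im) ^ 2 := pow_le_pow_left₀ hR0.le (by linarith) 2
      linarith
    have hdpos : 0 < R ^ 2 + (x₀ - w.re) ^ 2 := by positivity
    calc max (w.im - y) 0 * (R + 1 - y) / ((x₀ - w.re) ^ 2 + (R + 1 - w.im) ^ 2) ≤
        max (w.im - y) 0 * (3 * R) / (R ^ 2 + (x₀ - w.re) ^ 2) := by
          refine div_le_div₀ (by positivity) ?_ hdpos hden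
          exact mul_le_mul_of_nonneg_left (by linarith) hm
      _ = _ := by ring
  rw [Multiset.sum_map_mul_left] at h6
  set S := (p.roots.map (fun w => max (w.im - y) 0 * R / (R ^ 2 + (x₀ - w.re) ^ 2))).sum with hS
  have h7 : η / (10 * R) * cnt ≤ 15 * S := by linarith
  have h8 : η / (10 * R) * cnt * (10 * R) ≤ 15 * S * (10 * R) :=
    mul_le_mul_of_nonneg_right h7 (by positivity)
  have h9 : η / (10 * R) * cnt * (10 * R) = cnt * η := by field_simp
  rw [h9] at h8
  linarith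

end Pool.Agent.J4H79.DN
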